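import Pool.Agent.Helper45.U4.St3

/-!
# Project U4 (MP_a1f43d_co): module TAN (tangent generators)
-/

set_option autoImplicit false

open Module Classical
open scoped LinearAlgebra.Projectivization

namespace Pool.Agent.Helper66.U4

open Pool.Agent.Helper45.U4 Pool.Agent.Helper53.PB

section

variable {F V : Type} [Field F] [AddCommGroup V] [Module F V] [Finite F] [Finite V] [FiniteDimensional F V]

/-- The excess of the two neighbours belonging to a hyperplane of `U`. -/
noncomputable def KK {P : Polar F V} {U : Submodule F V} (T : Finset (ℙ F V)) (N : Nb P U Bool) :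
    ℙ F (Dual F U) → ℕ :=
  fun G => (tt T (N.nb (false, G)) - 1) + (tt T (N.nb (true, G)) - 1)

theorem KK_cast {P : Polar F V} {U : Submodule F V} {T : Finset (ℙ F V)} (hT : P.Block T)
    (N : Nb P U Bool) (G : ℙ F (Dual F U)) :
    (KK T N G : ℤ) = (tf (chi T) (N.nb (true, G)) - 1) + (tf (chi T) (N.nb (false, G)) - 1) := by
  have h1 := tt_pos hT (N.gen (false, G))
  have h2 := tt_pos hT (N.gen (true, G))
  unfold KK
  rw [tf_chi, tf_chi]
  omega

theorem sum_KK {P : Polar F V} {U : Submodule F V} {T : Finset (ℙ F V)} (hT : P.Block T)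
    (N : Nb P U Bool) :
    ((∑ G, KK T N G : ℕ) : ℤ) = ∑ p, (tf (chi T) (N.nb p) - 1) := by
  rw [Nat.cast_sum, Fintype.sum_prod_type, Fintype.sum_bool, ← Finset.sum_add_distrib]
  exact Finset.sum_congr rfl fun G _ => KK_cast hT N G

theorem hs_KK {P : Polar F V} {U : Submodule F V} {T : Finset (ℙ F V)} (hT : P.Block T)
    (N : Nb P U Bool) (x : U) :
    (hs (KK T N) x : ℤ)
      = ∑ p ∈ Finset.univ.filter (fun p => (x : V) ∈ N.nb p), (tf (chi T) (N.nb p) - 1) := by
  unfold hs
  rw [Nat.cast_sum, Finset.sum_filter, Finset.sum_filter, Fintype.sum_prod_type, Fintype.sum_bool,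
    ← Finset.sum_add_distrib]
  apply Finset.sum_congr rfl
  intro G _
  have h1 := N.inU (true, G) x
  have h2 := N.inU (false, G) x
  by_cases h : G.rep x = 0
  · rw [if_pos h, if_pos (h1.2 h), if_pos (h2.2 h)]
    exact KK_cast hT N G
  · rw [if_neg h, if_neg (fun h' => h (h1.1 h')), if_neg (fun h' => h (h2.1 h'))]
    rfl

/-- The point of `U` given by a point of `V` with representative in `U`. -/
theorem exists_pt {U : Submodule F V} {X : ℙ F V} (h : X.rep ∈ U) :
    ∃ x : ℙ F U, Projectivization.map U.subtype U.injective_subtype x = X := by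
  have h0 : (⟨X.rep, h⟩ : U) ≠ 0 := fun h1 => X.rep_nonzero (congrArg Subtype.val h1)
  refine ⟨Projectivization.mk F ⟨X.rep, h⟩ h0, ?_⟩
  rw [Projectivization.map_mk]
  exact X.mk_rep

theorem up_mem {U W : Submodule F V} (x : ℙ F U) :
    (Projectivization.map U.subtype U.injective_subtype x).rep ∈ W ↔ (x.rep : V) ∈ W := by
  conv_lhs => rw [← x.mk_rep]
  rw [Projectivization.map_mk, rep_mk_mem]
  rfl

end

theorem hTAN (h1 : StHNB) (h2 : StNBX) (h3 : StRFO) (h4 : StGPG) (h5 : StMNB) : StTAN := by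
  intro F V _ _ _ _ _ _ φ T hM U hU hT1
  obtain ⟨N⟩ := h1 φ 4 hM.hs U hU
  have hT := hM.block
  have hsup : Sup φ.toPolar (chi T) := sup_chi hT.1
  obtain ⟨⟨hA, -⟩, hB, -⟩ := (h3 φ (chi T) hM.hs hsup).1 U hU N
  have htf : tf (chi T) U = 1 := by rw [tf_chi, hT1]; rfl
  rw [htf, sum_chi, hM.card] at hA
  have hK : ∑ G, KK T N G = 10 := by
    have := sum_KK hT N
    rw [hA] at this
    have h : ((∑ G, KK T N G : ℕ) : ℤ) = 10 := by rw [this]; norm_num
    exact_mod_cast h
  have hS : ∀ x : ℙ F U, (hs (KK T N) x.rep : ℤ)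
      = s4 φ.toPolar (chi T) (Projectivization.map U.subtype U.injective_subtype x) := by
    intro x
    have hxU : (Projectivization.map U.subtype U.injective_subtype x).rep ∈ U :=
      (up_mem x).2 x.rep.2
    have h := (hB _ hxU).1
    rw [htf] at h
    rw [hs_KK hT N x.rep]
    have hf : (Finset.univ.filter (fun p => (x.rep : V) ∈ N.nb p))
        = Finset.univ.filter (fun p =>
            (Projectivization.map U.subtype U.injective_subtype x).rep ∈ N.nb p) := by
      apply Finset.filter_congr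
      intro p _
      exact (up_mem x).symm
    rw [hf, h]
    norm_num
  obtain ⟨Z, hZ⟩ := Finset.card_eq_one.1 hT1
  have hZm : Z ∈ T ∧ Z.rep ∈ U := Finset.mem_filter.1 (hZ ▸ Finset.mem_singleton_self Z)
  obtain ⟨z, hz⟩ := exists_pt hZm.2
  have hnot : ∀ x : ℙ F U, x ≠ z → Projectivization.map U.subtype U.injective_subtype x ∉ T := by
    intro x hx hxT
    have hxm : Projectivization.map U.subtype U.injective_subtype x ∈ T.filter (fun y => y.rep ∈ U) :=
      Finset.mem_filter.2 ⟨hxT, (up_mem x).2 x.rep.2⟩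
    rw [hZ, Finset.mem_singleton, ← hz] at hxm
    exact hx (Projectivization.map_injective _ _ hxm)
  have hge : ∀ x : ℙ F U, x ≠ z → 2 ≤ hs (KK T N) x.rep := by
    intro x hx
    have hX := hnot x hx
    have hsing : φ.Sing (Projectivization.map U.subtype U.injective_subtype x).rep :=
      hU.1.1 _ ((up_mem x).2 x.rep.2)
    have h35 := ((h5 φ).1 T hM).1 _ hsing hX
    have h := hS x
    unfold s4 at h
    rw [chi_not hX, nf_chi] at h
    omega
  obtain ⟨g1, g2, g3⟩ := h4 (KK T N) z hM.hs.card (hM.hs.gen U hU) hK hge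
  constructor
  · intro R hR
    obtain ⟨x, rfl⟩ := exists_pt hR
    have hSx := hS x
    constructor
    · by_cases hx : x = z
      · rw [hx] at hSx ⊢
        omega
      · have := hge x hx
        omega
    · intro hRT
      have hx : x ≠ z := by
        rintro rfl
        exact hRT (hz ▸ hZm.1)
      have := g1 x hx
      omega
  · intro W hW hd hW2
    obtain ⟨p, rfl⟩ := (h2 φ 4 hM.hs U hU N).1 W hW (by omega)
    have hKp : 1 ≤ KK T N p.2 := by
      obtain ⟨b, G⟩ := p
      unfold KK
      cases b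
      · show 1 ≤ (tt T (N.nb (false, G)) - 1) + (tt T (N.nb (true, G)) - 1)
        omega
      · show 1 ≤ (tt T (N.nb (false, G)) - 1) + (tt T (N.nb (true, G)) - 1)
        omega
    obtain ⟨x, hx, hGx, hx2⟩ := g3 p.2 hKp
    refine ⟨Projectivization.map U.subtype U.injective_subtype x, (up_mem x).2 x.rep.2,
      (up_mem x).2 ((N.inU p x.rep).2 hGx), hnot x hx, ?_⟩
    rw [← hS x, hx2]
    rfl

end Pool.Agent.Helper66.U4
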